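import Mathlib

/-!
Lattice polytopes in `ℝ^d`, their Ehrhart counting function and their `h*`-polynomial.
-/

namespace Pool.Agent.Lib_helper87.Ehrhart

open Polynomial
open scoped Pointwise

/-- The integer vector `v ∈ ℤ^d`, viewed as a point of `ℝ^d`. -/
def toReal {d : ℕ} (v : Fin d → ℤ) : Fin d → ℝ := fun i => (v i : ℝ)

/-- `P ⊂ ℝ^d` is a full-dimensional lattice polytope: the convex hull of finitely many points
of `ℤ^d`, whose affine span is all of `ℝ^d`. -/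
def IsLatticePolytope {d : ℕ} (P : Set (Fin d → ℝ)) : Prop :=
  (∃ V : Finset (Fin d → ℤ), P = convexHull ℝ (toReal '' (V : Set (Fin d → ℤ)))) ∧
    affineSpan ℝ P = ⊤

/-- The Ehrhart counting function `m ↦ #(mP ∩ ℤ^d)`. -/
noncomputable def ehrhartCount {d : ℕ} (P : Set (Fin d → ℝ)) (m : ℕ) : ℕ :=
  Set.ncard {z : Fin d → ℤ | toReal z ∈ (m : ℝ) • P}

/-- `h` is the `h*`-polynomial of `P ⊂ ℝ^d`:
`(∑_{m ≥ 0} #(mP ∩ ℤ^d) t^m) (1 - t)^(d+1) = h(t)` as formal power series. -/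
def IsHStar {d : ℕ} (P : Set (Fin d → ℝ)) (h : ℤ[X]) : Prop :=
  PowerSeries.mk (fun m => (ehrhartCount P m : ℤ)) * (1 - PowerSeries.X) ^ (d + 1)
    = (h : PowerSeries ℤ)

end Pool.Agent.Lib_helper87.Ehrhart
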