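import Pool.Agent.Lib_helper87.Ehrhart.Defs

/-!
Ehrhart theory of lattice simplices: the group of the simplex, heights, and the `h*`-polynomial.
-/

namespace Pool.Agent.Lib_helper87.Ehrhart

open Finset
open scoped Pointwise

set_option linter.unusedSectionVars false

variable {d : ℕ} {ι : Type*} [Fintype ι]

/-- homogenised barycentric coordinates. -/
noncomputable def lam (b : AffineBasis ι ℝ (Fin d → ℝ)) (i : ι) (x : Fin d → ℝ) (t : ℝ) : ℝ :=
  (b.coord i).linear x + t * b.coord i 0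

theorem coord_eq (b : AffineBasis ι ℝ (Fin d → ℝ)) (i : ι) (x : Fin d → ℝ) :
    b.coord i x = (b.coord i).linear x + b.coord i 0 := by
  have := congrFun (AffineMap.decomp (b.coord i)) x
  simpa using this

theorem lam_one (b : AffineBasis ι ℝ (Fin d → ℝ)) (i : ι) (x : Fin d → ℝ) :
    lam b i x 1 = b.coord i x := by
  rw [lam, coord_eq b i x]; ring

theorem lam_add (b : AffineBasis ι ℝ (Fin d → ℝ)) (i : ι) (x y : Fin d → ℝ) (s t : ℝ) :
    lam b i (x + y) (s + t) = lam b i x s + lam b i y t := by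
  simp only [lam, map_add]; ring

theorem lam_smul (b : AffineBasis ι ℝ (Fin d → ℝ)) (i : ι) (x : Fin d → ℝ) (c t : ℝ) :
    lam b i (c • x) (c * t) = c * lam b i x t := by
  simp only [lam, map_smul, smul_eq_mul]; ring

theorem sum_linear (b : AffineBasis ι ℝ (Fin d → ℝ)) (x : Fin d → ℝ) :
    ∑ i, (b.coord i).linear x = 0 := by
  have h1 := b.sum_coord_apply_eq_one x
  have h0 := b.sum_coord_apply_eq_one (0 : Fin d → ℝ)
  simp_rw [coord_eq b _ x] at h1
  rw [Finset.sum_add_distrib, h0] at h1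
  linarith

theorem sum_lam (b : AffineBasis ι ℝ (Fin d → ℝ)) (x : Fin d → ℝ) (t : ℝ) :
    ∑ i, lam b i x t = t := by
  simp only [lam]
  rw [Finset.sum_add_distrib, sum_linear, ← Finset.mul_sum, b.sum_coord_apply_eq_one]
  ring

theorem sum_lam_smul (b : AffineBasis ι ℝ (Fin d → ℝ)) (x : Fin d → ℝ) (t : ℝ) :
    ∑ i, lam b i x t • b i = x := by
  have h0 := b.linear_combination_coord_eq_self (0 : Fin d → ℝ)
  have h1 := b.linear_combination_coord_eq_self x
  simp_rw [coord_eq b _ x, add_smul] at h1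
  rw [Finset.sum_add_distrib, h0, add_zero] at h1
  simp only [lam, add_smul, mul_smul]
  rw [Finset.sum_add_distrib, h1, ← Finset.smul_sum, h0, smul_zero, add_zero]

theorem toReal_add (z w : Fin d → ℤ) : toReal (z + w) = toReal z + toReal w := by
  ext i; simp [toReal]

theorem toReal_zero : toReal (0 : Fin d → ℤ) = 0 := by
  ext i; simp [toReal]

theorem toReal_injective : Function.Injective (toReal (d := d)) := by
  intro z w h
  ext i
  have := congrFun h i
  simpa [toReal] using this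

/-- the coordinate homomorphisms on the lattice `ℤ^d × ℤ`. -/
noncomputable def Lam (b : AffineBasis ι ℝ (Fin d → ℝ)) (i : ι) : (Fin d → ℤ) × ℤ →+ ℝ where
  toFun p := lam b i (toReal p.1) (p.2 : ℝ)
  map_zero' := by simp [lam, toReal_zero]
  map_add' p q := by
    simp only [Prod.fst_add, Prod.snd_add, toReal_add, Int.cast_add]
    exact lam_add b i _ _ _ _

theorem Lam_apply (b : AffineBasis ι ℝ (Fin d → ℝ)) (i : ι) (z : Fin d → ℤ) (t : ℤ) :
    Lam b i (z, t) = lam b i (toReal z) t := rfl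

/-- the homomorphism to the torus. -/
noncomputable def Theta (b : AffineBasis ι ℝ (Fin d → ℝ)) :
    (Fin d → ℤ) × ℤ →+ (ι → AddCircle (1 : ℝ)) where
  toFun p := fun i => ((Lam b i p : ℝ) : AddCircle (1 : ℝ))
  map_zero' := by ext i; simp
  map_add' p q := by ext i; simp

theorem Theta_apply (b : AffineBasis ι ℝ (Fin d → ℝ)) (p : (Fin d → ℤ) × ℤ) (i : ι) :
    Theta b p i = ((Lam b i p : ℝ) : AddCircle (1 : ℝ)) := rfl

/-- the group of the simplex. -/
noncomputable def grp (b : AffineBasis ι ℝ (Fin d → ℝ)) : AddSubgroup (ι → AddCircle (1 : ℝ)) :=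
  (Theta b).range

/-- the representative in `[0,1)`. -/
noncomputable def rep (x : AddCircle (1 : ℝ)) : ℝ := (AddCircle.equivIco (1 : ℝ) 0 x : ℝ)

theorem rep_coe (r : ℝ) : rep (r : AddCircle (1 : ℝ)) = Int.fract r := by
  rw [rep, AddCircle.coe_equivIco_mk_apply]; simp

theorem exists_coe (x : AddCircle (1 : ℝ)) : ∃ r : ℝ, (r : AddCircle (1 : ℝ)) = x :=
  QuotientAddGroup.mk_surjective x

theorem rep_nonneg (x : AddCircle (1 : ℝ)) : 0 ≤ rep x := by
  obtain ⟨r, rfl⟩ := exists_coe x
  rw [rep_coe]; exact Int.fract_nonneg r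

theorem coe_rep (x : AddCircle (1 : ℝ)) : ((rep x : ℝ) : AddCircle (1 : ℝ)) = x := by
  obtain ⟨r, rfl⟩ := exists_coe x
  rw [rep_coe]
  have : Int.fract r = r - (⌊r⌋ : ℤ) := rfl
  rw [this]
  have h2 : (((⌊r⌋ : ℤ) : ℝ) : AddCircle (1 : ℝ)) = 0 := by
    rw [AddCircle.coe_eq_zero_iff]
    exact ⟨⌊r⌋, by simp⟩
  rw [AddCircle.coe_sub, h2, sub_zero]

theorem coe_int (n : ℤ) : ((n : ℝ) : AddCircle (1 : ℝ)) = 0 := by
  rw [AddCircle.coe_eq_zero_iff]
  exact ⟨n, by simp⟩

theorem rep_zero : rep 0 = 0 := by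
  have := rep_coe 0
  simpa using this

theorem rep_eq_zero {x : AddCircle (1 : ℝ)} : rep x = 0 ↔ x = 0 := by
  constructor
  · intro h
    rw [← coe_rep x, h]; simp
  · rintro rfl; exact rep_zero

theorem rep_add_rep_neg (x : AddCircle (1 : ℝ)) [Decidable (x = 0)] :
    rep x + rep (-x) = if x = 0 then 0 else 1 := by
  split_ifs with h
  · subst h; simp [rep_zero]
  · obtain ⟨r, rfl⟩ := exists_coe x
    have h2 : Int.fract r ≠ 0 := by
      intro h3
      apply h
      rw [← coe_rep (r : AddCircle (1 : ℝ)), rep_coe, h3]; simp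
    rw [← AddCircle.coe_neg, rep_coe, rep_coe, Int.fract_neg h2]; ring

theorem sum_rep_Theta (b : AffineBasis ι ℝ (Fin d → ℝ)) (p : (Fin d → ℤ) × ℤ) :
    ∑ i, rep (Theta b p i) = ((p.2 - ∑ i, ⌊Lam b i p⌋ : ℤ) : ℝ) := by
  simp only [Theta_apply, rep_coe, Int.fract]
  rw [Finset.sum_sub_distrib]
  have : ∑ i, Lam b i p = p.2 := by
    obtain ⟨z, t⟩ := p
    simp only [Lam_apply]
    exact sum_lam b _ _
  rw [this]
  push_cast
  ring

/-- the height of a group element. -/
noncomputable def hgt (b : AffineBasis ι ℝ (Fin d → ℝ)) (g : grp b) : ℕ :=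
  (⌊∑ i, rep (g.1 i)⌋).toNat

theorem hgt_cast (b : AffineBasis ι ℝ (Fin d → ℝ)) (g : grp b) :
    (hgt b g : ℝ) = ∑ i, rep (g.1 i) := by
  obtain ⟨g, p, rfl⟩ := g
  have h := sum_rep_Theta b p
  have hn : 0 ≤ ∑ i, rep (Theta b p i) := Finset.sum_nonneg (fun i _ => rep_nonneg _)
  simp only [hgt]
  rw [h] at hn ⊢
  rw [Int.floor_intCast]
  have hn' : (0 : ℤ) ≤ (p.2 - ∑ i, ⌊Lam b i p⌋ : ℤ) := by exact_mod_cast hn
  rw [← Int.cast_natCast (R := ℝ), Int.toNat_of_nonneg hn']

/-- the lattice points of level `m` in the cone over the simplex. -/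
def coneLevel (b : AffineBasis ι ℝ (Fin d → ℝ)) (m : ℕ) : Set (Fin d → ℤ) :=
  {z | ∀ i, 0 ≤ lam b i (toReal z) m}

theorem finite_box (b : AffineBasis ι ℝ (Fin d → ℝ)) :
    Set.Finite {p : (Fin d → ℤ) × ℤ | ∀ i, 0 ≤ Lam b i p ∧ Lam b i p < 1} := by
  classical
  -- bound for the entries
  set R : ℤ := ⌈∑ i, ∑ j, |b i j|⌉ with hR
  have hsub : {p : (Fin d → ℤ) × ℤ | ∀ i, 0 ≤ Lam b i p ∧ Lam b i p < 1} ⊆
      ((Fintype.piFinset (fun _ : Fin d => Finset.Icc (-R) R)) ×ˢ
        (Finset.Icc (0 : ℤ) (Fintype.card ι)) : Finset _) := by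
    rintro ⟨z, t⟩ hp
    simp only [Set.mem_ofPred_eq, Lam_apply] at hp
    simp only [Finset.coe_product, Set.mem_prod, Finset.mem_coe, Fintype.mem_piFinset,
      Finset.mem_Icc]
    constructor
    · intro j
      have hz : (z j : ℝ) = ∑ i, lam b i (toReal z) t * b i j := by
        have h := congrFun (sum_lam_smul b (toReal z) t) j
        simp only [Finset.sum_apply, Pi.smul_apply, smul_eq_mul] at h
        rw [h]; rfl
      have habs : |(z j : ℝ)| ≤ ∑ i, ∑ j, |b i j| := by
        rw [hz]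
        refine (Finset.abs_sum_le_sum_abs _ _).trans (Finset.sum_le_sum (fun i _ => ?_))
        rw [abs_mul, abs_of_nonneg (hp i).1]
        have h1 : lam b i (toReal z) t * |b i j| ≤ 1 * |b i j| := by
          apply mul_le_mul_of_nonneg_right (hp i).2.le (abs_nonneg _)
        have h2 : |b i j| ≤ ∑ j, |b i j| :=
          Finset.single_le_sum (f := fun j => |b i j|) (fun j _ => abs_nonneg _) (Finset.mem_univ j)
        linarith
      have hle : |(z j : ℝ)| ≤ (R : ℝ) := habs.trans (Int.le_ceil _)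
      rw [abs_le] at hle
      constructor
      · have := hle.1
        exact_mod_cast this
      · have := hle.2
        exact_mod_cast this
    · have hs := sum_lam b (toReal z) (t : ℝ)
      constructor
      · have : (0 : ℝ) ≤ t := by
          rw [← hs]; exact Finset.sum_nonneg (fun i _ => (hp i).1)
        exact_mod_cast this
      · have : (t : ℝ) ≤ Fintype.card ι := by
          rw [← hs]
          calc ∑ i, lam b i (toReal z) t ≤ ∑ i : ι, (1 : ℝ) :=
                Finset.sum_le_sum (fun i _ => (hp i).2.le)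
            _ = Fintype.card ι := by simp
        exact_mod_cast this
  exact (Finset.finite_toSet _).subset hsub

variable {v : ι → (Fin d → ℤ)}

/-- translating by vertices. -/
theorem Lam_shift [DecidableEq ι] (b : AffineBasis ι ℝ (Fin d → ℝ)) (hv : ∀ i, b i = toReal (v i))
    (p : (Fin d → ℤ) × ℤ) (n : ι → ℤ) (i : ι) :
    Lam b i (p + ∑ j, n j • ((v j, 1) : (Fin d → ℤ) × ℤ)) = Lam b i p + n i := by
  rw [map_add, map_sum]
  congr 1
  have : ∀ j, Lam b i (n j • ((v j, 1) : (Fin d → ℤ) × ℤ)) = if i = j then (n j : ℝ) else 0 := by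
    intro j
    rw [map_zsmul, Lam_apply]
    have : lam b i (toReal (v j)) ((1 : ℤ) : ℝ) = if i = j then 1 else 0 := by
      rw [Int.cast_one, lam_one, ← hv j, AffineBasis.coord_apply]
    rw [this]
    split_ifs <;> simp
  simp_rw [this]
  simp

theorem Theta_shift [DecidableEq ι] (b : AffineBasis ι ℝ (Fin d → ℝ)) (hv : ∀ i, b i = toReal (v i))
    (p : (Fin d → ℤ) × ℤ) (n : ι → ℤ) :
    Theta b (p + ∑ j, n j • ((v j, 1) : (Fin d → ℤ) × ℤ)) = Theta b p := by
  ext i
  rw [Theta_apply, Theta_apply, Lam_shift b hv, AddCircle.coe_add, coe_int, add_zero]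

theorem finite_grp (b : AffineBasis ι ℝ (Fin d → ℝ)) (hv : ∀ i, b i = toReal (v i)) :
    Finite (grp b) := by
  classical
  have h : ((grp b : AddSubgroup _) : Set (ι → AddCircle (1 : ℝ))) ⊆
      (Theta b) '' {p : (Fin d → ℤ) × ℤ | ∀ i, 0 ≤ Lam b i p ∧ Lam b i p < 1} := by
    rintro g ⟨p, rfl⟩
    refine ⟨p + ∑ j, (-⌊Lam b j p⌋) • ((v j, 1) : (Fin d → ℤ) × ℤ), ?_, Theta_shift b hv _ _⟩
    intro i
    rw [Lam_shift b hv]
    push_cast
    constructor
    · have := Int.floor_le (Lam b i p); linarith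
    · have := Int.lt_floor_add_one (Lam b i p); linarith
  exact Set.Finite.to_subtype (((finite_box b).image _).subset h)

theorem ncard_coneLevel (b : AffineBasis ι ℝ (Fin d → ℝ)) (hv : ∀ i, b i = toReal (v i))
    [Fintype (grp b)] [DecidableEq ι] (m : ℕ) :
    Set.ncard (coneLevel b m) = ∑ g : grp b,
      if hgt b g ≤ m then ((univ : Finset ι).finsuppAntidiag (m - hgt b g)).card else 0 := by
  classical
  set S : Finset ((_ : grp b) × (ι →₀ ℕ)) := univ.sigma (fun g : grp b =>
    if hgt b g ≤ m then (univ : Finset ι).finsuppAntidiag (m - hgt b g) else ∅) with hS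
  have hScard : S.card = ∑ g : grp b,
      if hgt b g ≤ m then ((univ : Finset ι).finsuppAntidiag (m - hgt b g)).card else 0 := by
    rw [hS, Finset.card_sigma]
    refine Finset.sum_congr rfl (fun g _ => ?_)
    split_ifs <;> simp
  rw [← hScard, ← Set.ncard_coe_finset]
  have hmemS : ∀ x : (_ : grp b) × (ι →₀ ℕ), x ∈ (S : Set _) ↔ hgt b x.1 + ∑ i, x.2 i = m := by
    intro x
    rw [Finset.mem_coe, hS, Finset.mem_sigma]
    constructor
    · rintro ⟨-, h⟩
      split_ifs at h with hle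
      · rw [Finset.mem_finsuppAntidiag] at h
        have h1 : ∑ i, x.2 i = m - hgt b x.1 := h.1
        omega
      · simp at h
    · intro h
      refine ⟨Finset.mem_univ _, ?_⟩
      have hle : hgt b x.1 ≤ m := by omega
      rw [if_pos hle, Finset.mem_finsuppAntidiag]
      have h1 : ∑ i, x.2 i = m - hgt b x.1 := by omega
      exact ⟨h1, Finset.subset_univ _⟩
  refine Set.ncard_congr (fun z _ => ⟨⟨Theta b (z, (m : ℤ)), ⟨(z, (m : ℤ)), rfl⟩⟩,
    Finsupp.equivFunOnFinite.symm (fun i => (⌊Lam b i (z, (m : ℤ))⌋).toNat)⟩) ?_ ?_ ?_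
  · intro z hz
    rw [hmemS]
    have hz' : ∀ i, 0 ≤ Lam b i (z, (m : ℤ)) := by
      intro i; rw [Lam_apply]; exact_mod_cast hz i
    have h1 := hgt_cast b ⟨Theta b (z, (m : ℤ)), ⟨(z, (m : ℤ)), rfl⟩⟩
    simp only at h1
    rw [sum_rep_Theta] at h1
    have h2 : ((hgt b ⟨Theta b (z, (m : ℤ)), ⟨(z, (m : ℤ)), rfl⟩⟩ : ℕ) : ℤ)
        = (m : ℤ) - ∑ i, ⌊Lam b i (z, (m : ℤ))⌋ := by exact_mod_cast h1
    have h3 : ((∑ i, (⌊Lam b i (z, (m : ℤ))⌋).toNat : ℕ) : ℤ) = ∑ i, ⌊Lam b i (z, (m : ℤ))⌋ := by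
      push_cast
      refine Finset.sum_congr rfl (fun i _ => ?_)
      exact Int.toNat_of_nonneg (Int.floor_nonneg.mpr (hz' i))
    simp only [Finsupp.equivFunOnFinite_symm_apply_apply]
    have : ((hgt b ⟨Theta b (z, (m : ℤ)), ⟨(z, (m : ℤ)), rfl⟩⟩ + ∑ i, (⌊Lam b i (z, (m : ℤ))⌋).toNat : ℕ) : ℤ) = m := by
      rw [Nat.cast_add, h2, h3]; ring
    exact_mod_cast this
  · intro z w hz hw h
    have hz' : ∀ i, 0 ≤ Lam b i (z, (m : ℤ)) := by
      intro i; rw [Lam_apply]; exact_mod_cast hz i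
    have hw' : ∀ i, 0 ≤ Lam b i (w, (m : ℤ)) := by
      intro i; rw [Lam_apply]; exact_mod_cast hw i
    simp only [Sigma.mk.injEq, heq_eq_eq, Subtype.mk.injEq, EmbeddingLike.apply_eq_iff_eq] at h
    obtain ⟨ha, hb⟩ := h
    have hlam : ∀ i, Lam b i (z, (m : ℤ)) = Lam b i (w, (m : ℤ)) := by
      intro i
      have h1 := congrFun ha i
      rw [Theta_apply, Theta_apply] at h1
      have h1' := congrArg rep h1
      rw [rep_coe, rep_coe] at h1'
      have h2 := congrFun hb i
      have h2z : ((⌊Lam b i (z, (m : ℤ))⌋).toNat : ℤ) = ⌊Lam b i (z, (m : ℤ))⌋ :=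
        Int.toNat_of_nonneg (Int.floor_nonneg.mpr (hz' i))
      have h2w : ((⌊Lam b i (w, (m : ℤ))⌋).toNat : ℤ) = ⌊Lam b i (w, (m : ℤ))⌋ :=
        Int.toNat_of_nonneg (Int.floor_nonneg.mpr (hw' i))
      have h3 : ⌊Lam b i (z, (m : ℤ))⌋ = ⌊Lam b i (w, (m : ℤ))⌋ := by
        rw [← h2z, ← h2w, h2]
      rw [← Int.floor_add_fract (Lam b i (z, (m : ℤ))), ← Int.floor_add_fract (Lam b i (w, (m : ℤ))),
        h3, h1']
    apply toReal_injective
    rw [← sum_lam_smul b (toReal z) (m : ℝ), ← sum_lam_smul b (toReal w) (m : ℝ)]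
    refine Finset.sum_congr rfl (fun i _ => ?_)
    have := hlam i
    rw [Lam_apply, Lam_apply] at this
    push_cast at this
    rw [this]
  · rintro ⟨⟨g, p, rfl⟩, n⟩ hx
    rw [hmemS] at hx
    simp only at hx
    set q : (Fin d → ℤ) × ℤ := p + ∑ j, ((n j : ℤ) - ⌊Lam b j p⌋) • ((v j, 1) : (Fin d → ℤ) × ℤ) with hq
    have hqL : ∀ i, Lam b i q = Int.fract (Lam b i p) + n i := by
      intro i
      rw [hq, Lam_shift b hv]
      push_cast
      rw [Int.fract]; ring
    have hqT : Theta b q = Theta b p := by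
      rw [hq, Theta_shift b hv]
    have hq2 : q.2 = m := by
      have h1 : ((q.2 : ℤ) : ℝ) = ∑ i, Lam b i q := by
        have := sum_lam b (toReal q.1) (q.2 : ℝ)
        rw [← this]; rfl
      have h2 := hgt_cast b ⟨Theta b p, ⟨p, rfl⟩⟩
      simp only at h2
      have h3 : ∑ i, Lam b i q = (m : ℝ) := by
        simp_rw [hqL]
        rw [Finset.sum_add_distrib]
        have h4 : ∑ i, Int.fract (Lam b i p) = ∑ i, rep (Theta b p i) := by
          refine Finset.sum_congr rfl (fun i _ => ?_)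
          rw [Theta_apply, rep_coe]
        rw [h4, ← h2, ← hx]
        push_cast; ring
      have h5 : ((q.2 : ℤ) : ℝ) = ((m : ℤ) : ℝ) := by rw [h1, h3]; simp
      exact_mod_cast h5
    have hqe : q = (q.1, (m : ℤ)) := by rw [← hq2]
    refine ⟨q.1, ?_, ?_⟩
    · intro i
      have h1 := hqL i
      rw [hqe, Lam_apply] at h1
      push_cast at h1
      rw [h1]
      have := Int.fract_nonneg (Lam b i p)
      positivity
    · simp only [Sigma.mk.injEq, heq_eq_eq, Subtype.mk.injEq]
      constructor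
      · rw [← hqe, hqT]
      · ext i
        simp only [Finsupp.equivFunOnFinite_symm_apply_apply]
        rw [← hqe, hqL i, Int.floor_add_natCast, Int.floor_fract]
        simp

/-- The `h*`-series of a simplex is the height enumerator of its group. -/
theorem series_coneLevel (b : AffineBasis ι ℝ (Fin d → ℝ)) (hv : ∀ i, b i = toReal (v i))
    [Fintype (grp b)] :
    PowerSeries.mk (fun m => (Set.ncard (coneLevel b m) : ℤ)) * (1 - PowerSeries.X) ^ (Fintype.card ι)
      = ∑ g : grp b, (PowerSeries.X : PowerSeries ℤ) ^ (hgt b g) := by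
  classical
  have h1 : PowerSeries.mk (fun m => (Set.ncard (coneLevel b m) : ℤ))
      = (∑ g : grp b, (PowerSeries.X : PowerSeries ℤ) ^ (hgt b g)) * (PowerSeries.mk 1) ^ (Fintype.card ι) := by
    ext m
    rw [PowerSeries.coeff_mk, ncard_coneLevel b hv m, Finset.sum_mul, map_sum]
    push_cast
    refine Finset.sum_congr rfl (fun g _ => ?_)
    rw [PowerSeries.coeff_X_pow_mul']
    by_cases hle : hgt b g ≤ m
    · rw [if_pos hle, if_pos hle]
      have : (PowerSeries.mk 1 : PowerSeries ℤ) ^ (Fintype.card ι) = ∏ _j : ι, PowerSeries.mk 1 := by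
        simp
      rw [this, PowerSeries.coeff_prod]
      simp
    · rw [if_neg hle, if_neg hle]
  rw [h1, mul_assoc, ← mul_pow, PowerSeries.mk_one_mul_one_sub_eq_one, one_pow, mul_one]

/-- For a simplex the dilate is the cone level. -/
theorem mem_smul_iff (b : AffineBasis ι ℝ (Fin d → ℝ)) (m : ℕ) (z : Fin d → ℤ) :
    toReal z ∈ (m : ℝ) • convexHull ℝ (Set.range b) ↔ z ∈ coneLevel b m := by
  rw [AffineBasis.convexHull_eq_nonneg_coord]
  rcases Nat.eq_zero_or_pos m with rfl | hm
  · constructor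
    · intro h
      obtain ⟨x, _, hx⟩ := h
      simp only [Nat.cast_zero, zero_smul] at hx
      intro i
      rw [← hx]
      simp [lam]
    · intro h
      have h' : ∀ i, 0 ≤ (b.coord i).linear (toReal z) := by
        intro i
        have := h i
        simpa [lam] using this
      have h0 : ∀ i, (b.coord i).linear (toReal z) = 0 := by
        intro i
        have := (Finset.sum_eq_zero_iff_of_nonneg (fun i _ => h' i)).mp (sum_linear b (toReal z))
        exact this i (Finset.mem_univ i)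
      have hz : toReal z = 0 := by
        apply b.ext_elem
        intro i
        rw [coord_eq b i (toReal z), h0 i, zero_add]
      rw [hz]
      have hne : Nonempty ι := b.nonempty
      obtain ⟨i0⟩ := hne
      refine ⟨b i0, ?_, by simp⟩
      intro i
      classical
      rw [AffineBasis.coord_apply]
      split_ifs <;> norm_num
  · have hm' : (0 : ℝ) < m := by exact_mod_cast hm
    rw [Set.mem_smul_set_iff_inv_smul_mem₀ hm'.ne']
    simp only [Set.mem_ofPred_eq, coneLevel]
    refine forall_congr' (fun i => ?_)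
    have : b.coord i ((m : ℝ)⁻¹ • toReal z) = (m : ℝ)⁻¹ * lam b i (toReal z) m := by
      rw [← lam_smul, inv_mul_cancel₀ hm'.ne', lam_one]
    rw [this]
    constructor
    · intro h
      by_contra hneg
      push Not at hneg
      have := mul_neg_of_pos_of_neg (inv_pos.mpr hm') hneg
      linarith
    · intro h
      positivity

end Pool.Agent.Lib_helper87.Ehrhart
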