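import Pool.Agent.Lib_helper87.Core
import Pool.Agent.Lib_helper87.Ehrhart.Simplex

/-!
From the `h*`-polynomial `1 + a t^k + b t^{2k}`, `k ≥ 2`, to the volume bound.
-/

namespace Pool.Agent.Lib_helper87.Ehrhart

open Finset
open scoped Pointwise

theorem hstar_coeffs {d : ℕ} {P : Set (Fin d → ℝ)} {k a b : ℕ}
    (h : IsHStar P (1 + Polynomial.C (a : ℤ) * Polynomial.X ^ k
      + Polynomial.C (b : ℤ) * Polynomial.X ^ (2 * k))) :
    PowerSeries.mk (fun m => (ehrhartCount P m : ℤ)) * (1 - PowerSeries.X) ^ (d + 1)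
      = 1 + PowerSeries.C (a : ℤ) * PowerSeries.X ^ k + PowerSeries.C (b : ℤ) * PowerSeries.X ^ (2 * k) := by
  rw [IsHStar] at h
  rw [h]
  push_cast
  simp

theorem ehrhartCount_one {d : ℕ} {P : Set (Fin d → ℝ)} {k a b : ℕ} (hk : 2 ≤ k)
    (h : IsHStar P (1 + Polynomial.C (a : ℤ) * Polynomial.X ^ k
      + Polynomial.C (b : ℤ) * Polynomial.X ^ (2 * k))) :
    ehrhartCount P 1 = d + 1 := by
  have h1 := hstar_coeffs h
  have h2 : PowerSeries.mk (fun m => (ehrhartCount P m : ℤ))
      = (1 + PowerSeries.C (a : ℤ) * PowerSeries.X ^ k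
        + PowerSeries.C (b : ℤ) * PowerSeries.X ^ (2 * k)) * (PowerSeries.mk 1) ^ (d + 1) := by
    rw [← h1, mul_assoc, ← mul_pow, mul_comm (1 - PowerSeries.X),
      PowerSeries.mk_one_mul_one_sub_eq_one, one_pow, mul_one]
  have h3 := congrArg (PowerSeries.coeff 1) h2
  rw [PowerSeries.mk_one_pow_eq_mk_choose_add, PowerSeries.coeff_mk, PowerSeries.coeff_mul] at h3
  have hk1 : k ≠ 0 := by omega
  have hk2 : k ≠ 1 := by omega
  have hk3 : 2 * k ≠ 1 := by omega
  have ha : Finset.HasAntidiagonal.antidiagonal 1 = {((0 : ℕ), (1 : ℕ)), (1, 0)} := by decide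
  rw [ha] at h3
  rw [Finset.sum_pair (by decide)] at h3
  simp only [map_add, PowerSeries.coeff_C_mul, PowerSeries.coeff_X_pow, PowerSeries.coeff_one,
    PowerSeries.coeff_mk] at h3
  simp only [if_true, hk1.symm, hk2.symm, hk3.symm, if_false, mul_zero, add_zero] at h3
  have h0 : (0 : ℕ) ≠ 2 * k := by omega
  have h1' : (1 : ℕ) ≠ 0 := one_ne_zero
  simp only [h0, h1', if_false, mul_zero, add_zero, one_mul, zero_mul] at h3
  have h4 : (d + 1).choose d = d + 1 := by
    rw [Nat.choose_symm_of_eq_add (a := d) (b := 1) rfl, Nat.choose_one_right]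
  rw [h4] at h3
  exact_mod_cast h3

/-- A lattice polytope with exactly `d+1` lattice points is a simplex. -/
theorem exists_basis {d : ℕ} {P : Set (Fin d → ℝ)} (hP : IsLatticePolytope P)
    (h1 : ehrhartCount P 1 = d + 1) :
    ∃ (V : Finset (Fin d → ℤ)) (b : AffineBasis V ℝ (Fin d → ℝ)),
      (∀ i : V, b i = toReal i.1) ∧ Fintype.card V = d + 1 ∧ P = convexHull ℝ (Set.range b) := by
  classical
  obtain ⟨⟨V, rfl⟩, hspan⟩ := hP
  rw [affineSpan_convexHull] at hspan
  set p : V → (Fin d → ℝ) := fun v => toReal v.1 with hp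
  have hrange : toReal '' (V : Set (Fin d → ℤ)) = Set.range p := by
    ext x; constructor
    · rintro ⟨v, hv, rfl⟩; exact ⟨⟨v, hv⟩, rfl⟩
    · rintro ⟨⟨v, hv⟩, rfl⟩; exact ⟨v, hv, rfl⟩
  rw [hrange] at hspan h1 ⊢
  -- V has at most d+1 elements
  have hfin : Set.Finite {z : Fin d → ℤ | toReal z ∈ ((1 : ℕ) : ℝ) • convexHull ℝ (Set.range p)} := by
    apply Set.finite_of_ncard_ne_zero
    have : ehrhartCount (convexHull ℝ (Set.range p)) 1 ≠ 0 := by rw [h1]; omega
    exact this
  have hVsub : (V : Set (Fin d → ℤ)) ⊆ {z : Fin d → ℤ | toReal z ∈ ((1 : ℕ) : ℝ) • convexHull ℝ (Set.range p)} := by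
    intro v hv
    have : toReal v ∈ convexHull ℝ (Set.range p) := subset_convexHull ℝ _ ⟨⟨v, hv⟩, rfl⟩
    simpa using this
  have hVle : V.card ≤ d + 1 := by
    have h2 := Set.ncard_le_ncard hVsub hfin
    rw [Set.ncard_coe_finset] at h2
    have h3 : Set.ncard {z : Fin d → ℤ | toReal z ∈ ((1 : ℕ) : ℝ) • convexHull ℝ (Set.range p)} = d + 1 := h1
    omega
  have hVcard : Fintype.card V = V.card := Fintype.card_coe V
  -- V is nonempty
  have hVne : 0 < V.card := by
    rw [Finset.card_pos]
    by_contra hne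
    rw [Finset.not_nonempty_iff_eq_empty] at hne
    subst hne
    have : Set.range p = ∅ := by
      rw [Set.range_eq_empty_iff]
      infer_instance
    rw [this, AffineSubspace.span_empty] at hspan
    exact (bot_ne_top hspan)
  obtain ⟨n, hn⟩ : ∃ n, V.card = n + 1 := ⟨V.card - 1, by omega⟩
  have hdim : Module.finrank ℝ (vectorSpan ℝ (Set.range p)) = d := by
    rw [← direction_affineSpan, hspan, AffineSubspace.direction_top, finrank_top,
      Module.finrank_fin_fun]
  have hle := finrank_vectorSpan_range_le ℝ p (hVcard.trans hn)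
  rw [hdim] at hle
  have hnd : n = d := by omega
  have hind : AffineIndependent ℝ p := by
    rw [affineIndependent_iff_finrank_vectorSpan_eq ℝ p (hVcard.trans hn), hdim, hnd]
  refine ⟨V, ⟨p, hind, hspan⟩, fun i => rfl, by rw [hVcard, hn, hnd], rfl⟩

theorem main {d : ℕ} {P : Set (Fin d → ℝ)} (hP : IsLatticePolytope P) {k a b : ℕ}
    (hk : 2 ≤ k) (hb : 2 ≤ b)
    (h : IsHStar P (1 + Polynomial.C (a : ℤ) * Polynomial.X ^ k
      + Polynomial.C (b : ℤ) * Polynomial.X ^ (2 * k))) :
    a + b + 1 ≤ (4 * b + 4) * k := by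
  classical
  obtain ⟨V, B, hv, hcard, hPB⟩ := exists_basis hP (ehrhartCount_one hk h)
  have hfin : Finite (grp B) := finite_grp B hv
  have hF : Fintype (grp B) := Fintype.ofFinite _
  have hser := series_coneLevel B hv
  have hE : ∀ m, ehrhartCount P m = Set.ncard (coneLevel B m) := by
    intro m
    rw [ehrhartCount]
    congr 1
    ext z
    rw [Set.mem_ofPred_eq, hPB]
    exact mem_smul_iff B m z
  have h2 := hstar_coeffs h
  simp_rw [hE] at h2
  rw [hcard, h2] at hser
  -- coefficient extraction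
  have hcoef : ∀ j : ℕ, ((univ.filter (fun g : grp B => hgt B g = j)).card : ℤ)
      = (if j = 0 then 1 else 0) + (a : ℤ) * (if j = k then 1 else 0) + (b : ℤ) * (if j = 2 * k then 1 else 0) := by
    intro j
    have h3 := congrArg (PowerSeries.coeff j) hser
    rw [map_sum] at h3
    simp only [map_add, PowerSeries.coeff_C_mul, PowerSeries.coeff_X_pow, PowerSeries.coeff_one] at h3
    rw [h3, Finset.card_filter]
    push_cast
    refine Finset.sum_congr rfl (fun g _ => ?_)
    simp only [eq_comm]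
  have hz : hgt B 0 = 0 := by
    have := hgt_cast B 0
    simp only [ZeroMemClass.coe_zero, Pi.zero_apply, rep_zero, Finset.sum_const_zero] at this
    exact_mod_cast this
  have hne : ∀ g : grp B, g ≠ 0 → hgt B g ≠ 0 := by
    intro g hg hg0
    apply hg
    have h3 := hgt_cast B g
    rw [hg0] at h3
    push_cast at h3
    have h4 := (Finset.sum_eq_zero_iff_of_nonneg (fun i _ => rep_nonneg (g.1 i))).mp h3.symm
    ext i
    have := h4 i (Finset.mem_univ i)
    rw [rep_eq_zero] at this
    exact this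
  have hcases : ∀ g : grp B, g ≠ 0 → hgt B g = k ∨ hgt B g = 2 * k := by
    intro g hg
    by_contra hcon
    push Not at hcon
    have h3 := hcoef (hgt B g)
    rw [if_neg (hne g hg), if_neg hcon.1, if_neg hcon.2] at h3
    have h4 : 0 < (univ.filter (fun g' : grp B => hgt B g' = hgt B g)).card := by
      rw [Finset.card_pos]
      exact ⟨g, by simp⟩
    have h5 : (0 : ℤ) < ((univ.filter (fun g' : grp B => hgt B g' = hgt B g)).card : ℤ) := by
      exact_mod_cast h4
    rw [h3] at h5
    simp at h5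
  let K : V → AddSubgroup (grp B) := fun i =>
    ((Pi.evalAddMonoidHom (fun _ : V => AddCircle (1 : ℝ)) i).comp (grp B).subtype).ker
  have hK : ∀ (i : V) (g : grp B), g ∈ K i ↔ g.1 i = 0 := by
    intro i g
    simp [K, AddMonoidHom.mem_ker]
  have hkne : k ≠ 0 := by omega
  have h2kne : 2 * k ≠ 0 := by omega
  have hk2k : k ≠ 2 * k := by omega
  refine core K (hgt B) k a b hk hb ?_ hz hcases ?_ ?_
  · intro g
    have h3 : ((hgt B g + hgt B (-g) : ℕ) : ℝ) = ((univ.filter (fun i => g ∉ K i)).card : ℝ) := by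
      rw [Nat.cast_add, hgt_cast, hgt_cast, ← Finset.sum_add_distrib, Finset.card_filter]
      push_cast
      refine Finset.sum_congr rfl (fun i _ => ?_)
      have h4 := rep_add_rep_neg (g.1 i)
      rw [Pi.neg_apply, h4]
      by_cases hg : g.1 i = 0
      · simp [hK, hg]
      · simp [hK, hg]
    exact_mod_cast h3
  · have h3 := hcoef (2 * k)
    rw [if_neg h2kne, if_neg hk2k.symm, if_pos rfl] at h3
    have : ((univ.filter (fun g : grp B => hgt B g = 2 * k)).card : ℤ) = b := by
      rw [h3]; ring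
    exact_mod_cast this
  · have h3 : (univ : Finset (grp B)) = univ.filter (fun g => hgt B g = 0)
        ∪ (univ.filter (fun g => hgt B g = k) ∪ univ.filter (fun g => hgt B g = 2 * k)) := by
      ext g
      simp only [Finset.mem_univ, Finset.mem_union, Finset.mem_filter, true_and, true_iff]
      by_cases hg : g = 0
      · left; rw [hg, hz]
      · right; exact hcases g hg
    have hd1 : Disjoint (univ.filter (fun g : grp B => hgt B g = k)) (univ.filter (fun g => hgt B g = 2 * k)) := by
      rw [Finset.disjoint_filter]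
      intro g _ h4 h5
      omega
    have hd2 : Disjoint (univ.filter (fun g : grp B => hgt B g = 0))
        (univ.filter (fun g => hgt B g = k) ∪ univ.filter (fun g => hgt B g = 2 * k)) := by
      rw [Finset.disjoint_union_right, Finset.disjoint_filter, Finset.disjoint_filter]
      exact ⟨fun g _ h4 h5 => by omega, fun g _ h4 h5 => by omega⟩
    have hc0 := hcoef 0
    have hc1 := hcoef k
    have hc2 := hcoef (2 * k)
    rw [if_pos rfl, if_neg hkne.symm, if_neg h2kne.symm] at hc0
    rw [if_neg hkne, if_pos rfl, if_neg hk2k] at hc1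
    rw [if_neg h2kne, if_neg hk2k.symm, if_pos rfl] at hc2
    have : (Fintype.card (grp B) : ℤ) = 1 + a + b := by
      rw [← Finset.card_univ, h3, Finset.card_union_of_disjoint hd2, Finset.card_union_of_disjoint hd1]
      push_cast
      rw [hc0, hc1, hc2]; ring
    exact_mod_cast this

end Pool.Agent.Lib_helper87.Ehrhart
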